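import Pool.Agent.H179.SDP.Main

set_option autoImplicit false

namespace Pool.Agent.Results.MP_3e18ff_co.Classification

/-- `B` is the set of blocks of a Steiner system `S(t, k, |X|)` on the finite set `X`:
the blocks are sets of `k` points, and every set of `t` points lies in exactly one block. -/
def IsSteinerSystem {X : Type*} (t k : ℕ) (B : Finset (Finset X)) : Prop :=
  (∀ b ∈ B, b.card = k) ∧ ∀ T : Finset X, T.card = t → ∃! b : Finset X, b ∈ B ∧ T ⊆ b

/-- the symmetric difference property: if two blocks meet in exactly `k / 2` points, then their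
symmetric difference is a block. -/
def HasSDP {X : Type*} [DecidableEq X] (k : ℕ) (B : Finset (Finset X)) : Prop :=
  ∀ b ∈ B, ∀ c ∈ B, 2 * (b ∩ c).card = k → symmDiff b c ∈ B

/-- **Classification of the Steiner systems with the symmetric difference property.**
A nontrivial Steiner system `S(t, k, n)`, `t < k < n`, with `k` even, `k < 2 t` and the symmetric
difference property has `k = 2 t - 2`, or else `(t, k, n) = (5, 6, 12)`. -/
theorem result (X : Type*) [Fintype X] [DecidableEq X] (t k n : ℕ) (B : Finset (Finset X))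
    (hn : Fintype.card X = n) (hk : Even k) (hkt : k < 2 * t) (htk : t < k) (hkn : k < n)
    (hB : IsSteinerSystem t k B) (hS : HasSDP k B) :
    k = 2 * t - 2 ∨ (t = 5 ∧ k = 6 ∧ n = 12) := by
  obtain ⟨m, hm⟩ := hk
  obtain ⟨s, hs⟩ : ∃ s, t = m + s := Nat.exists_eq_add_of_le (by omega)
  have hk2 : k = 2 * m := by omega
  subst hk2 hs hn
  have h : Pool.Agent.H179.SDP.Sys m s B := by
    refine ⟨⟨fun b _ => Finset.subset_univ b, hB.1, ?_, ?_⟩, ?_⟩
    · intro S _ hc
      obtain ⟨b, hb, _⟩ := hB.2 S hc
      exact ⟨b, hb.1, hb.2⟩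
    · intro S hc b hb c hc' h1 h2
      exact (hB.2 S hc).unique ⟨hb, h1⟩ ⟨hc', h2⟩
    · intro b hb c hc hbc
      exact hS b hb c hc (by omega)
  rcases h.classify (by omega) (by omega) hkn with h1 | ⟨h1, h2, h3⟩
  · left; omega
  · right; exact ⟨by omega, by omega, h3⟩

end Pool.Agent.Results.MP_3e18ff_co.Classification
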